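import Mathlib

/-!
# Farkas' map `V` on the odd numbers is the `3x+1` map

Outline.  `V (2x+1) = 2 T(x) + 1` for all `x ≥ 0`, where `T` is the `3x+1` map.  Every orbit of `V`
reaches an odd number by halving.
-/

set_option autoImplicit false

namespace Pool.Agent.Results.MP_2efb47_nt.CollatzConjugacy

/-- the map of the problem -/
def V (n : ℕ) : ℕ :=
  if n % 2 = 0 then n / 2 else if n % 4 = 1 then (n + 1) / 2 else (3 * n + 1) / 2

/-- the `3x+1` map -/
def T (x : ℕ) : ℕ := if x % 2 = 0 then x / 2 else (3 * x + 1) / 2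

/-- the orbit of `n` under `f` is eventually periodic -/
def EventuallyPeriodic (f : ℕ → ℕ) (n : ℕ) : Prop := ∃ j p : ℕ, 1 ≤ p ∧ f^[j + p] n = f^[j] n

theorem conj (x : ℕ) : V (2 * x + 1) = 2 * T x + 1 := by
  unfold V T
  rcases Nat.mod_two_eq_zero_or_one x with h | h
  · rw [if_neg (by omega), if_pos (by omega), if_pos h]
    omega
  · rw [if_neg (by omega), if_neg (by omega), if_neg (by omega)]
    omega

theorem conj_iter (k x : ℕ) : V^[k] (2 * x + 1) = 2 * T^[k] x + 1 := by
  induction k generalizing x with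
  | zero => rfl
  | succ k ih => rw [Function.iterate_succ_apply, Function.iterate_succ_apply, conj, ih]

theorem halve (j x : ℕ) : V^[j] (2 ^ j * (2 * x + 1)) = 2 * x + 1 := by
  induction j with
  | zero => simp
  | succ j ih =>
    rw [Function.iterate_succ_apply]
    have h : V (2 ^ (j + 1) * (2 * x + 1)) = 2 ^ j * (2 * x + 1) := by
      have e : 2 ^ (j + 1) * (2 * x + 1) = 2 * (2 ^ j * (2 * x + 1)) := by rw [pow_succ]; ring
      rw [e]
      unfold V
      rw [if_pos (by omega)]
      omega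
    rw [h, ih]

theorem exists_odd {n : ℕ} (hn : 1 ≤ n) : ∃ j x : ℕ, n = 2 ^ j * (2 * x + 1) := by
  obtain ⟨j, m, hm, h⟩ := Nat.exists_eq_two_pow_mul_odd (n := n) (by omega)
  obtain ⟨x, hx⟩ := hm
  exact ⟨j, x, by rw [h, hx]⟩

theorem per_iff (x : ℕ) : EventuallyPeriodic V (2 * x + 1) ↔ EventuallyPeriodic T x := by
  unfold EventuallyPeriodic
  constructor
  · rintro ⟨j, p, hp, h⟩
    refine ⟨j, p, hp, ?_⟩
    rw [conj_iter, conj_iter] at h
    omega
  · rintro ⟨j, p, hp, h⟩
    refine ⟨j, p, hp, ?_⟩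
    rw [conj_iter, conj_iter, h]

theorem per_shift {f : ℕ → ℕ} {n k : ℕ} :
    EventuallyPeriodic f (f^[k] n) ↔ EventuallyPeriodic f n := by
  unfold EventuallyPeriodic
  constructor
  · rintro ⟨j, p, hp, h⟩
    refine ⟨j + k, p, hp, ?_⟩
    rw [← Function.iterate_add_apply, ← Function.iterate_add_apply] at h
    have e : j + k + p = j + p + k := by ring
    rw [e]
    exact h
  · rintro ⟨j, p, hp, h⟩
    refine ⟨j, p, hp, ?_⟩
    rw [← Function.iterate_add_apply, ← Function.iterate_add_apply]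
    have e1 : j + p + k = k + (j + p) := by ring
    have e2 : j + k = k + j := by ring
    rw [e1, e2, Function.iterate_add_apply f k (j + p) n, h, ← Function.iterate_add_apply]

/-- (1) `V (2x+1) = 2 T(x) + 1` for all `x ≥ 0`, and so for all iterates.
(2) For `n = 2^j (2x+1)` the orbit of `n` under `V` is eventually periodic if and only if the orbit of
`x` under the `3x+1` map `T` is.
(3) The statement of Q1 holds if and only if every orbit of `T` on the positive integers is eventually
periodic. -/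
theorem result :
    (∀ k x : ℕ, V^[k] (2 * x + 1) = 2 * T^[k] x + 1) ∧
    (∀ j x : ℕ, EventuallyPeriodic V (2 ^ j * (2 * x + 1)) ↔ EventuallyPeriodic T x) ∧
    ((∀ n : ℕ, 1 ≤ n → EventuallyPeriodic V n) ↔ (∀ x : ℕ, 1 ≤ x → EventuallyPeriodic T x)) := by
  have h2 : ∀ j x : ℕ, EventuallyPeriodic V (2 ^ j * (2 * x + 1)) ↔ EventuallyPeriodic T x := by
    intro j x
    rw [← per_iff x, ← per_shift (f := V) (n := 2 ^ j * (2 * x + 1)) (k := j), halve]
  refine ⟨conj_iter, h2, ?_⟩
  constructor
  · intro h x _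
    exact (per_iff x).1 (h (2 * x + 1) (by omega))
  · intro h n hn
    obtain ⟨j, x, rfl⟩ := exists_odd hn
    rw [h2]
    rcases Nat.eq_zero_or_pos x with h0 | h0
    · subst h0
      exact ⟨0, 1, le_rfl, rfl⟩
    · exact h x h0

end Pool.Agent.Results.MP_2efb47_nt.CollatzConjugacy
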